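import Pool.Agent.H87.D3.Targets

/-! Row BTF of `d3h_modules`: facts on the beta numbers. -/

set_option autoImplicit false

namespace Pool.Agent.H67.D3.BTF

open MeasureTheory Metric Set Filter Topology
open Pool.Agent.H87.SN Pool.Agent.H87.SH Pool.Agent.H87.AX Pool.Agent.H87.D3
open scoped ContDiff RealInnerProductSpace ENNReal

theorem norm_bv {n : ℕ} (i : Fin n) : ‖(bv i : E n)‖ = 1 := by simp [bv]

theorem nsq_nonneg {n m : ℕ} (L : E n →L[ℝ] E m) : 0 ≤ nsq L :=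
  Finset.sum_nonneg fun i _ => by positivity

theorem nsq_le {m : ℕ} (L : V →L[ℝ] E m) : nsq L ≤ 3 * ‖L‖ ^ 2 := by
  unfold nsq
  calc ∑ i, ‖L (bv i)‖ ^ 2 ≤ ∑ _i : Fin (1 + 2), ‖L‖ ^ 2 := by
        refine Finset.sum_le_sum fun i _ => ?_
        have h := L.le_opNorm (bv i)
        rw [norm_bv, mul_one] at h
        gcongr
    _ = 3 * ‖L‖ ^ 2 := by simp

theorem mu_ne_top {m : ℕ} {G : V → V →L[ℝ] E m} (hG : MemLp G 2 (volume.restrict (ball (0 : V) 2)))
    (s : Set V) : mu G s ≠ ⊤ := by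
  have h1 : Integrable (fun x => ‖G x‖ ^ 2) (volume.restrict (ball (0 : V) 2)) :=
    hG.integrable_norm_pow (by norm_num)
  have h2 := (h1.const_mul 3).lintegral_lt_top
  refine ne_top_of_le_ne_top h2.ne ?_
  calc mu G s ≤ mu G univ := measure_mono (subset_univ s)
    _ = ∫⁻ x, ENNReal.ofReal (nsq (G x)) ∂(volume.restrict (ball (0 : V) 2)) := by
        rw [mu, withDensity_apply _ MeasurableSet.univ, Measure.restrict_univ]
    _ ≤ ∫⁻ x, ENNReal.ofReal (3 * ‖G x‖ ^ 2) ∂(volume.restrict (ball (0 : V) 2)) :=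
        lintegral_mono fun x => ENNReal.ofReal_le_ofReal (nsq_le _)

theorem dl_bounds (a T y : V) (hT : ‖T‖ = 1) : 0 ≤ dl a T y ∧ dl a T y ≤ ‖y - a‖ ^ 2 := by
  unfold dl
  have h := abs_real_inner_le_norm (y - a) T
  rw [hT, mul_one] at h
  have h2 : ⟪y - a, T⟫ ^ 2 ≤ ‖y - a‖ ^ 2 := by
    rw [← sq_abs]
    gcongr
  constructor
  · linarith
  · nlinarith [sq_nonneg ⟪y - a, T⟫]

theorem bt_le {m : ℕ} (G : V → V →L[ℝ] E m) (Λ : ℝ) (hG : GD Λ G) (x : V) (t : ℝ) (ht : 0 < t)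
    (hb : ball x (8 * t) ⊆ ball 0 2) : bt G x t ≤ ENNReal.ofReal (512 * Λ) := by
  have hT : ‖(bv 0 : V)‖ = 1 := norm_bv _
  have hd := hG.den x (8 * t) (by linarith) hb
  have hμ : mu G (ball x (8 * t)) ≤ ENNReal.ofReal (Λ * (8 * t)) := by
    rw [← ENNReal.ofReal_toReal (mu_ne_top hG.memG (ball x (8 * t)))]
    exact ENNReal.ofReal_le_ofReal hd
  have h0 : 0 ≤ Λ * (8 * t) := le_trans measureReal_nonneg hd
  calc bt G x t ≤ ENNReal.ofReal ((t ^ 3)⁻¹) *
        ∫⁻ y in ball x (8 * t), ENNReal.ofReal (dl x (bv 0) y) ∂(mu G) := by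
        unfold bt
        exact iInf_le_of_le x (iInf_le_of_le (bv 0) (iInf_le_of_le hT le_rfl))
    _ ≤ ENNReal.ofReal ((t ^ 3)⁻¹) *
        ∫⁻ _ in ball x (8 * t), ENNReal.ofReal ((8 * t) ^ 2) ∂(mu G) := by
        refine mul_le_mul_right ?_ _
        refine setLIntegral_mono' measurableSet_ball fun y hy => ENNReal.ofReal_le_ofReal ?_
        refine (dl_bounds x (bv 0) y hT).2.trans ?_
        have : ‖y - x‖ < 8 * t := by simpa [dist_eq_norm] using hy
        gcongr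
    _ = ENNReal.ofReal ((t ^ 3)⁻¹) * (ENNReal.ofReal ((8 * t) ^ 2) * mu G (ball x (8 * t))) := by
        rw [setLIntegral_const]
    _ ≤ ENNReal.ofReal ((t ^ 3)⁻¹) * (ENNReal.ofReal ((8 * t) ^ 2) *
          ENNReal.ofReal (Λ * (8 * t))) := by gcongr
    _ = ENNReal.ofReal (512 * Λ) := by
        rw [← ENNReal.ofReal_mul (by positivity), ← ENNReal.ofReal_mul (by positivity)]
        congr 1
        field_simp
        ring

theorem bt_comp {m : ℕ} (G : V → V →L[ℝ] E m) (x x' : V) (t : ℝ) (ht : 0 < t)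
    (hd : dist x x' ≤ 8 * t) : bt G x t ≤ 8 * bt G x' (2 * t) := by
  unfold bt
  rw [ENNReal.mul_iInf_of_ne (by norm_num) (by norm_num)]
  refine le_iInf fun a => ?_
  rw [ENNReal.mul_iInf_of_ne (by norm_num) (by norm_num)]
  refine le_iInf fun T => ?_
  rw [ENNReal.mul_iInf_of_ne (by norm_num) (by norm_num)]
  refine le_iInf fun hT => ?_
  refine iInf_le_of_le a (iInf_le_of_le T (iInf_le_of_le hT ?_))
  rw [← mul_assoc]
  have h1 : (8 : ℝ≥0∞) * ENNReal.ofReal (((2 * t) ^ 3)⁻¹) = ENNReal.ofReal ((t ^ 3)⁻¹) := by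
    rw [show (8 : ℝ≥0∞) = ENNReal.ofReal 8 by norm_num, ← ENNReal.ofReal_mul (by norm_num)]
    congr 1
    field_simp
    norm_num
  rw [h1]
  gcongr
  intro y hy
  rw [mem_ball] at hy ⊢
  linarith [dist_triangle y x x']

end Pool.Agent.H67.D3.BTF

namespace Pool.Agent.H67.D3

theorem pf_BTF : Pool.Agent.H87.D3.T_BTF :=
  ⟨BTF.dl_bounds, fun _ G Λ hG x t ht hb => BTF.bt_le G Λ hG x t ht hb,
    fun _ G x x' t ht hd => BTF.bt_comp G x x' t ht hd⟩

end Pool.Agent.H67.D3
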